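import Pool.Agent.FS.IdIso.Count

/-! The spectrum of `((y x) y) y = x` among idempotent quasigroups isotopic to an abelian group. -/

namespace Pool.Agent.Variants.MP_0d0fd2_co.IdempotentIsotopes

open Pool.Agent.FS.IdIso

theorem result (n : ℕ) (hn : 1 ≤ n) :
    (∃ op : Fin n → Fin n → Fin n,
      (∀ a b, ∃! x, op a x = b) ∧ (∀ a b, ∃! x, op x a = b) ∧ (∀ x, op x x = x) ∧
      (∀ x y, op (op (op y x) y) y = x) ∧
      ∃ (G : Type) (_ : AddCommGroup G) (α β γ : Fin n ≃ G), ∀ x y, γ (op x y) = α x + β y) ↔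
    ∀ p : ℕ, p.Prime → (¬ ∃ a : ℤ, (p : ℤ) ∣ a ^ 3 - a ^ 2 + 1) → 3 ∣ n.factorization p := by
  constructor
  · rintro ⟨op, -, -, hI, hE, G, _, α, β, γ, hop⟩ p hp h1
    have : Fact p.Prime := ⟨hp⟩
    have : Finite G := Finite.of_equiv _ γ
    have hc : Nat.card G = n := by rw [← Nat.card_congr γ, Nat.card_fin]
    exact coreI p h1 n G hc (fun x => α (γ.symm x)) (fun x => β (γ.symm x))
      (fun x y => by simp only [← hop, Equiv.symm_apply_apply, hE, Equiv.apply_symm_apply])
      (fun x => by simp only [← hop, hI, Equiv.apply_symm_apply])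
  · intro h
    obtain ⟨G, _, _, hc, f, g, hE, hI⟩ := linI_of n (by omega) h
    have hg : Function.Bijective g := Finite.injective_iff_bijective.1 fun x x' h => by
      rw [← hE x 0, h, hE]
    have hf : Function.Bijective f := Finite.surjective_iff_bijective.1 fun z =>
      ⟨_, add_right_cancel (hE (z + g 0) 0)⟩
    let γ : Fin n ≃ G := (Finite.equivFinOfCardEq hc).symm
    refine ⟨fun x y => γ.symm (f (γ x) + g (γ y)), fun a b => ?_, fun a b => ?_, fun x => ?_,
      fun x y => ?_, G, inferInstance, γ.trans (Equiv.ofBijective f hf),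
      γ.trans (Equiv.ofBijective g hg), γ, fun x y => by simp⟩
    · obtain ⟨z, hz⟩ := hg.2 (γ b - f (γ a))
      refine ⟨γ.symm z, by simp [hz], fun y hy => ?_⟩
      simp only [Equiv.symm_apply_eq] at hy
      rw [Equiv.eq_symm_apply]
      exact hg.1 (by rw [hz, ← hy]; abel)
    · obtain ⟨z, hz⟩ := hf.2 (γ b - g (γ a))
      refine ⟨γ.symm z, by simp [hz], fun y hy => ?_⟩
      simp only [Equiv.symm_apply_eq] at hy
      rw [Equiv.eq_symm_apply]
      exact hf.1 (by rw [hz, ← hy]; abel)
    · simp only [hI, Equiv.symm_apply_apply]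
    · simp only [Equiv.apply_symm_apply, hE, Equiv.symm_apply_apply]

end Pool.Agent.Variants.MP_0d0fd2_co.IdempotentIsotopes
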