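import Pool.Agent.Lib.MP_0d0fd2_co.T132
import Pool.Agent.Lib.MP_0d0fd2_co.T158
import Pool.Agent.Lib.MP_0d0fd2_co.T170
import Pool.Agent.Lib.MP_0d0fd2_co.T174

namespace Pool.Agent.Variants.MP_0d0fd2_co.NewOrders

/-- Idempotent quasigroups satisfying `((y x) y) y = x` of the orders 132, 158, 170, 174. -/
theorem result : ∀ n ∈ ({132, 158, 170, 174} : Set ℕ), ∃ op : Fin n → Fin n → Fin n,
    (∀ a b, ∃! x, op a x = b) ∧ (∀ a b, ∃! x, op x a = b) ∧ (∀ x, op x x = x) ∧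
      ∀ x y, op (op (op y x) y) y = x := by
  intro n hn
  simp only [Set.mem_insert_iff, Set.mem_singleton_iff] at hn
  rcases hn with rfl | rfl | rfl | rfl
  · exact Pool.Agent.Lib.MP_0d0fd2_co.ex132
  · exact Pool.Agent.Lib.MP_0d0fd2_co.ex158
  · exact Pool.Agent.Lib.MP_0d0fd2_co.ex170
  · exact Pool.Agent.Lib.MP_0d0fd2_co.ex174

end Pool.Agent.Variants.MP_0d0fd2_co.NewOrders
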